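import Pool.Agent.Helper5.WT.Defs
import Pool.Agent.Helper5.WS.Cat

/-!
# Tate classes and exact sequences
-/

set_option autoImplicit false

open CategoryTheory CategoryTheory.Limits AlgebraicGeometry Polynomial
open Pool.Agent.Y116.UV Pool.Agent.Helper5.WS

namespace Pool.Agent.Helper5.WT

variable {K : Type} [Field K] {q : ℕ} {a : ℤ}

lemma tate_comp {M N : Type} [AddCommGroup M] [Module K[X] M] [AddCommGroup N] [Module K[X] N]
    (f : M →ₗ[K[X]] N) {φ : N → K} (h : IsTate q a N φ) : IsTate q a M (fun x => φ (f x)) := by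
  refine ⟨fun x y => ?_, fun p x => ?_⟩
  · change φ (f (x + y)) = φ (f x) + φ (f y)
    rw [map_add, h.1]
  · change φ (f (p • x)) = _ * φ (f x)
    rw [map_smul, h.2]

lemma untw_add (m : ℕ) : ∀ (M : ModuleCat.{0} K[X]) (x y : (tw (tateTwist K q) m).obj M),
    untw q m M (x + y) = untw q m M x + untw q m M y := by
  induction m with
  | zero => intro M x y; rfl
  | succ m ih =>
    intro M x y
    exact congrArg (un M) (ih ((tateTwist K q).obj M) x y)

lemma untw_smul (m : ℕ) : ∀ (M : ModuleCat.{0} K[X]) (p : K[X])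
    (x : (tw (tateTwist K q) m).obj M),
    untw q m M (p • x) = (scl K q)^[m] p • untw q m M x := by
  induction m with
  | zero => intro M p x; rfl
  | succ m ih =>
    intro M p x
    refine (congrArg (un M) (ih ((tateTwist K q).obj M) p x)).trans ?_
    rw [un_smul, Function.iterate_succ_apply']
    rfl

lemma eval_scl (hq : (q : K) ≠ 0) (m : ℕ) : ∀ (a : ℤ) (p : K[X]),
    ((scl K q)^[m] p).eval ((q : K) ^ a) = p.eval ((q : K) ^ (a + m)) := by
  have h0 : ∀ (a : ℤ) (p : K[X]), (scl K q p).eval ((q : K) ^ a) = p.eval ((q : K) ^ (a + 1)) := by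
    intro a p
    induction p using Polynomial.induction_on' with
    | add p r hp hr => rw [map_add, eval_add, eval_add, hp, hr]
    | monomial n c =>
      rw [← C_mul_X_pow_eq_monomial, map_mul, map_pow, scl_X, scl_C, eval_mul, eval_C, eval_pow,
        eval_mul, eval_C, eval_X, eval_mul, eval_C, eval_pow, eval_X, zpow_add₀ hq, zpow_one,
        mul_comm (q : K)]
  induction m with
  | zero => intro a p; simp
  | succ m ih =>
    intro a p
    rw [Function.iterate_succ_apply, ih, h0]
    congr 2
    push_cast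
    ring

lemma tate_untw (hq : (q : K) ≠ 0) (m : ℕ) (M : ModuleCat.{0} K[X]) {φ : M → K}
    (h : IsTate q a M φ) : IsTate q (a + m) ((tw (tateTwist K q) m).obj M)
      (fun x => φ (untw q m M x)) := by
  refine ⟨fun x y => ?_, fun p x => ?_⟩
  · exact (congrArg φ (untw_add m M x y)).trans (h.1 _ _)
  · refine (congrArg φ (untw_smul m M p x)).trans ?_
    rw [h.2, eval_scl hq]

section vs

variable {A B E : Type} [AddCommGroup A] [Module K[X] A] [AddCommGroup B] [Module K[X] B]
  [AddCommGroup E] [Module K[X] E]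

/-- Extension of a linear functional. -/
lemma exists_fun {V W : Type} [AddCommGroup V] [Module K V] [AddCommGroup W] [Module K W]
    (u : V →ₗ[K] W) (φ : V →ₗ[K] K) (h : LinearMap.ker u ≤ LinearMap.ker φ) :
    ∃ ψ : W →ₗ[K] K, ∀ x, ψ (u x) = φ x := by
  obtain ⟨ψ, hψ⟩ := LinearMap.exists_extend
    (((LinearMap.ker u).liftQ φ h).comp u.quotKerEquivRange.symm.toLinearMap)
  refine ⟨ψ, fun x => ?_⟩
  have h1 := congrArg (fun f => f ⟨u x, LinearMap.mem_range_self u x⟩) hψ
  change ψ (u x) = ((LinearMap.ker u).liftQ φ h) (u.quotKerEquivRange.symm ⟨u x, _⟩) at h1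
  have h2 : u.quotKerEquivRange.symm ⟨u x, LinearMap.mem_range_self u x⟩ =
      (LinearMap.ker u).mkQ x := by
    rw [LinearEquiv.symm_apply_eq]
    rfl
  rw [h2] at h1
  exact h1

/-- If `F - q ^ a` is injective on `E`, Tate classes extend. -/
lemma tate_extend (f : A →ₗ[K[X]] B) (g : B →ₗ[K[X]] E) (hf : Function.Injective f)
    (h0 : ∀ x, g (f x) = 0) (hfg : ∀ x, g x = 0 → ∃ y, f y = x) (hE : ¬ IsEig E ((q : K) ^ a))
    {φ : A → K} (h : IsTate q a A φ) : ∃ ψ : B → K, IsTate q a B ψ ∧ ∀ x, ψ (f x) = φ x := by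
  let _ : Module K A := Module.compHom A (C : K →+* K[X])
  let _ : Module K B := Module.compHom B (C : K →+* K[X])
  let c : K := (q : K) ^ a
  -- the operator `F - c`
  let L : B →ₗ[K] B :=
    { toFun := fun x => (X - C c : K[X]) • x
      map_add' := fun x y => smul_add _ _ _
      map_smul' := fun r x => by
        change (X - C c : K[X]) • ((C r : K[X]) • x) = (C r : K[X]) • ((X - C c : K[X]) • x)
        rw [← mul_smul, ← mul_smul, mul_comm] }
  let f' : A →ₗ[K] B :=
    { toFun := fun x => f x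
      map_add' := fun x y => map_add _ _ _
      map_smul' := fun r x => by
        change f ((C r : K[X]) • x) = (C r : K[X]) • f x
        rw [map_smul] }
  let φ' : A →ₗ[K] K :=
    { toFun := φ
      map_add' := h.1
      map_smul' := fun r x => by
        change φ ((C r : K[X]) • x) = r * φ x
        rw [h.2, eval_C] }
  let π : B →ₗ[K] B ⧸ LinearMap.range L := (LinearMap.range L).mkQ
  have hker : LinearMap.ker (π.comp f') ≤ LinearMap.ker φ' := by
    intro x hx
    rw [LinearMap.mem_ker, LinearMap.comp_apply] at hx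
    obtain ⟨y, hy⟩ := (Submodule.Quotient.mk_eq_zero _).mp hx
    change (X - C c : K[X]) • y = f x at hy
    have h1 : g y = 0 := by
      by_contra h1
      apply hE
      refine ⟨g y, h1, ?_⟩
      have h2 := h0 x
      rw [← hy, map_smul, sub_smul, sub_eq_zero] at h2
      exact h2
    obtain ⟨z, hz⟩ := hfg y h1
    have h2 : x = (X - C c : K[X]) • z := by
      apply hf
      rw [map_smul, hz, hy]
    rw [LinearMap.mem_ker]
    change φ x = 0
    rw [h2, h.2, eval_sub, eval_X, eval_C, sub_self, zero_mul]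
  obtain ⟨ψ, hψ⟩ := exists_fun _ _ hker
  let χ : B →ₗ[K] K := ψ.comp π
  have h3 : ∀ (r : K) (y : B), χ ((C r : K[X]) • y) = r * χ y := fun r y => map_smul χ r y
  have hstep : ∀ x : B, χ ((X : K[X]) • x) = c * χ x := by
    intro x
    have h1 : (X : K[X]) • x = (X - C c : K[X]) • x + (C c : K[X]) • x := by
      rw [sub_smul, sub_add_cancel]
    have h2 : χ ((X - C c : K[X]) • x) = 0 := by
      have h4 : π ((X - C c : K[X]) • x) = 0 := (Submodule.Quotient.mk_eq_zero _).mpr ⟨x, rfl⟩
      change ψ (π _) = 0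
      rw [h4, map_zero]
    rw [h1, map_add, h2, zero_add, h3]
  have hpow : ∀ (n : ℕ) (x : B), χ ((X ^ n : K[X]) • x) = c ^ n * χ x := by
    intro n
    induction n with
    | zero => intro x; rw [pow_zero, one_smul, pow_zero, one_mul]
    | succ n ih => intro x; rw [pow_succ', mul_smul, hstep, ih, pow_succ', mul_assoc]
  refine ⟨χ, ⟨fun x y => map_add χ x y, fun p x => ?_⟩, fun x => hψ x⟩
  induction p using Polynomial.induction_on' with
  | add p r hp hr => rw [add_smul, map_add, hp, hr, eval_add, add_mul]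
  | monomial n r =>
    rw [← C_mul_X_pow_eq_monomial, mul_smul, h3, hpow, eval_mul, eval_C, eval_pow, eval_X, mul_assoc]

end vs

section weights

variable [IsAlgClosed K] [Nonempty (K →+* ℂ)]

omit [IsAlgClosed K] [Nonempty (K →+* ℂ)] in
lemma weil_q (a : ℤ) : IsWeil q (2 * a) ((q : K) ^ a) := by
  intro ι
  rw [map_zpow₀, map_natCast, norm_zpow, Complex.norm_natCast, zpow_mul', zpow_ofNat]

omit [IsAlgClosed K] in
/-- There are no Tate classes of weight `2a` on a module with weights `≤ w < 2a`. -/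
lemma tate_zero (hq : 1 < q) {w : ℤ} (hw : w < 2 * a) {M : ModuleCat.{0} K[X]} (hM : LeF K q w M)
    {φ : M → K} (h : IsTate q a M φ) : φ = fun _ => 0 := by
  funext x
  by_contra hx
  let M' : Type := K
  let _ : AddCommGroup M' := inferInstanceAs (AddCommGroup K)
  let _ : Module K[X] M' := Module.compHom K (evalRingHom ((q : K) ^ a))
  let f : M →ₗ[K[X]] M' :=
    { toFun := φ
      map_add' := h.1
      map_smul' := fun p x => h.2 p x }
  have h1 : IsEig M ((q : K) ^ a) := by
    refine eig_of_image hM.1 f x hx ?_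
    change (X : K[X]).eval ((q : K) ^ a) * φ x = (C ((q : K) ^ a) : K[X]).eval ((q : K) ^ a) * φ x
    rw [eval_X, eval_C]
  obtain ⟨j, hj, h2⟩ := hM.2 _ h1
  have := weil_unique hq h2 (weil_q a)
  omega

omit [IsAlgClosed K] in
lemma not_eig (hq : 1 < q) {w : ℤ} (hw : 2 * a < w) {M : ModuleCat.{0} K[X]} (hM : GeF K q w M) :
    ¬ IsEig M ((q : K) ^ a) := by
  intro h
  obtain ⟨j, hj, h2⟩ := hM.2 _ h
  have := weil_unique hq h2 (weil_q a)
  omega

end weights

end Pool.Agent.Helper5.WT
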