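import Pool.Agent.Helper5.WS.Frob

/-!
# Cohomology with compact support, Tate classes and motivic classes: definitions
-/

set_option autoImplicit false

open CategoryTheory CategoryTheory.Limits AlgebraicGeometry Polynomial
open Pool.Agent.Y116.UV Pool.Agent.Helper5.WS

namespace Pool.Agent.Helper5.WT

/-- The function `φ` on the module `M` over `K[F]` is linear, with `φ (F x) = q ^ a φ (x)`: it is an
equivariant map from `M` to `K(-a)`. -/
def IsTate {K : Type} [Field K] (q : ℕ) (a : ℤ) (M : Type) [AddCommGroup M] [Module K[X] M]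
    (φ : M → K) : Prop :=
  (∀ x y, φ (x + y) = φ x + φ y) ∧ ∀ (p : K[X]) x, φ (p • x) = p.eval ((q : K) ^ a) * φ x

/-- The identity from the Tate twist `M(-m)` to `M`; it multiplies Frobenius by `q ^ m`. -/
noncomputable def untw {K : Type} [Field K] (q : ℕ) :
    ∀ (m : ℕ) (M : ModuleCat.{0} K[X]), (tw (tateTwist K q) m).obj M → M
  | 0, _ => id
  | m + 1, M => fun x => un M (untw q m ((tateTwist K q).obj M) x)

/-- The functions of the set `S a` on `N` become functions of the set `S' a` on `M`, by composition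
with `f`. -/
def Pulls {K : Type} [Field K] {M N : ModuleCat.{0} K[X]} (f : M ⟶ N) (S : ℤ → Set (N → K))
    (S' : ℤ → Set (M → K)) : Prop :=
  ∀ a, ∀ φ ∈ S a, (fun x => φ (f x)) ∈ S' a

/-- The cohomology with compact support `H n X` (with the action of Frobenius) for all schemes `X` over
`k`, the maps `ext j` (extension by zero) for open immersions `j`, and for all integers `a` the
set `Cyc n X a` of functionals on `H n X`, the motivic classes. -/
structure CycleThy (k : Type) [Field k] (K : Type) [Field K] where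
  H : ℤ → Sch k → ModuleCat.{0} K[X]
  ext : ∀ {U X : Sch k} (j : U ⟶ X), IsOpenImmersion j.left → ∀ n : ℤ, H n U ⟶ H n X
  Cyc : ∀ (n : ℤ) (X : Sch k) (_ : ℤ), Set (H n X → K)

/-- There is an isomorphism `e` of `H (i + 2m) E` with `(H i U)(-m)` such that a functional `φ` on
`H i U` is motivic for `a` if the functional `φ ∘ e` on `H (i + 2m) E` is motivic for `a + m`. -/
def TwistIso {k : Type} [Field k] {K : Type} [Field K] (D : CycleThy k K) (q m : ℕ) (i : ℤ)
    (E U : Sch k) : Prop :=
  ∃ e : D.H (i + 2 * m) E ≅ (tw (tateTwist K q) m).obj (D.H i U), ∀ (a : ℤ) (φ : D.H i U → K),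
    (fun x => φ (untw q m (D.H i U) (e.hom x))) ∈ D.Cyc (i + 2 * m) E (a + m) → φ ∈ D.Cyc i U a

/-- The map `f` has a left inverse. -/
def HasLeftInv {K : Type} [Field K] {M N : ModuleCat.{0} K[X]} (f : M ⟶ N) : Prop :=
  ∃ r : N ⟶ M, f ≫ r = 𝟙 M

/-- The spectrum of the ring `A[w_0, …, w_m] / (∑ f_l w_l - 1)`. -/
noncomputable def jouS (k : Type) [Field k] {A : Type} [CommRing A] [Algebra k A] {m : ℕ}
    (f : Fin m → A) : Sch k :=
  aff k (Jou f)

/-- There is a map from `H i X` to `H (i + 1) Y` with a left inverse, which respects the motivic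
classes. -/
def Splits {k : Type} [Field k] {K : Type} [Field K] (D : CycleThy k K) (i : ℤ) (X Y : Sch k) :
    Prop :=
  ∃ s : D.H i X ⟶ D.H (i + 1) Y, HasLeftInv s ∧ Pulls s (D.Cyc (i + 1) Y) (D.Cyc i X)

/-- The long exact sequence `⋯ → H^n_c(U) → H^n_c(X) → H^n_c(Z) → H^{n+1}_c(U) → ⋯`; the connecting
maps respect the motivic classes. -/
def Les {k : Type} [Field k] {K : Type} [Field K] (D : CycleThy k K) (Z X U : Sch k) (j : U ⟶ X)
    (hj : IsOpenImmersion j.left) : Prop :=
  ∃ (b : ∀ n, D.H n X ⟶ D.H n Z) (d : ∀ n, D.H n Z ⟶ D.H (n + 1) U),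
    (∀ n, ExactAt (D.ext j hj n) (b n)) ∧ (∀ n, ExactAt (b n) (d n)) ∧
    (∀ n, ExactAt (d n) (D.ext j hj (n + 1))) ∧ ∀ n, Pulls (d n) (D.Cyc (n + 1) U) (D.Cyc n Z)

/-- The known properties of the `ℓ`-adic cohomology with compact support and of the classes of the
higher Chow groups.
* `ext_id`, `ext_comp`: extension by zero is functorial;
* `zero`: the functional zero is motivic;
* `restrict`: the restriction of a motivic class to an open subscheme is motivic (flat pullback);
* `les`: the long exact sequence of a closed subscheme `Z` of `X` with complement `U`; its connecting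
  map corresponds to the boundary map `CH_a(U, c + 1) → CH_a(Z, c)`;
* `bundle`: for the affine bundle `Spec A[w_0, …, w_m] / (∑ f_l w_l - 1) → U` of dimension `m`, `U` the
  complement of `f = 0` in `Spec A`, `H^{i+2m}_c` of the total space is `H^i_c(U)(-m)`, and
  `CH_{a+m}(-, c)` of the total space is `CH_a(U, c)`;
* `torus`: the connecting map from `H^i_c(X)` to `H^{i+1}_c(X × 𝔾_m)` for `X × 𝔾_m ⊂ X × 𝔸^1 ⊃ X` is an
  isomorphism with a direct summand, for affine `X`;
* `clopen`: the cohomology of an open and closed subscheme is a direct summand;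
* `point`: `H^i_c` of `Spec k` vanishes for `i ≠ 0`;
* `ge_zero`: the weights are not negative;
* `bounded`: for every `X` the weights and the degrees of the cohomology are bounded above. -/
structure IsCycleThy {k : Type} [Field k] {K : Type} [Field K] (D : CycleThy k K) (q : ℕ) :
    Prop where
  ext_id : ∀ (X : Sch k) (h : IsOpenImmersion (𝟙 X : X ⟶ X).left), FT True X → ∀ n,
    D.ext (𝟙 X) h n = 𝟙 (D.H n X)
  ext_comp : ∀ {U V X : Sch k} (i : U ⟶ V) (j : V ⟶ X) (hi : IsOpenImmersion i.left)
    (hj : IsOpenImmersion j.left) (h : IsOpenImmersion (i ≫ j).left), FT True X → ∀ n,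
    D.ext (i ≫ j) h n = D.ext i hi n ≫ D.ext j hj n
  zero : ∀ (n : ℤ) (X : Sch k) (a : ℤ), (fun _ => 0) ∈ D.Cyc n X a
  restrict : ∀ {U X : Sch k} (j : U ⟶ X) (h : IsOpenImmersion j.left), FT True X → ∀ n,
    Pulls (D.ext j h n) (D.Cyc n X) (D.Cyc n U)
  les : ∀ {Z X U : Sch k} (i : Z ⟶ X) (j : U ⟶ X), FT True X → ∀ h : IsTriple i j,
    Les D Z X U j h.opened
  bundle : ∀ (A : Type) [CommRing A] [Algebra k A] [Algebra.FiniteType k A] (m : ℕ)
    (f : Fin (m + 1) → A) (U : Sch k) (j : U ⟶ aff k A), IsOpenImmersion j.left →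
    Set.range j.left = {x : PrimeSpectrum A | ∃ l, f l ∉ x.asIdeal} → ∀ i : ℤ,
    TwistIso D q m i (jouS k f) U
  torus : ∀ (A : Type) [CommRing A] [Algebra k A] [Algebra.FiniteType k A] (i : ℤ),
    Splits D i (aff k A) (aff k (LaurentPolynomial A))
  clopen : ∀ {Z X : Sch k} (i : Z ⟶ X), FT True X → IsClosedImmersion i.left →
    ∀ (h : IsOpenImmersion i.left) (n : ℤ), HasLeftInv (D.ext i h n)
  point : ∀ i : ℤ, i ≠ 0 → IsZero (D.H i (aff k k))
  ge_zero : ∀ X : Sch k, FT True X → ∀ i, GeF K q 0 (D.H i X)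
  bounded : ∀ X : Sch k, FT True X → ∃ N : ℤ, ∀ i, LeF K q N (D.H i X) ∧
    (N < i → IsZero (D.H i X))

end Pool.Agent.Helper5.WT
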