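import Pool.Agent.Helper5.WT.Geo

/-!
# Tate classes on affine schemes and on cubic hypersurfaces
-/

set_option autoImplicit false

open CategoryTheory CategoryTheory.Limits AlgebraicGeometry MvPolynomial
open Pool.Agent.Y116.UV Pool.Agent.Z125.UN Pool.Agent.Helper5.WS

namespace Pool.Agent.Helper5.WT

variable {k : Type} [Field k] {K : Type} [Field K] {q : ℕ} {D : CycleThy k K}
  (hD : IsCycleThy D q) [IsAlgClosed K] [Nonempty (K →+* ℂ)] (hq : 1 < q)

include hD hq

section piece

variable {σ κ : Type} [Finite σ] {G : κ → MvPolynomial σ k} {w e : MvPolynomial σ k}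

/-- The open part of a piece. -/
lemma good_pc {u v : ℤ} (huv : u < v)
    (hc : ∀ n, GeF K q v (D.H n (aff k (Pc (adj G e) w))))
    (ho : ∀ n, LeF K q u (D.H n (aff k (Pc G (w * e))))) {a n : ℤ}
    (h : Good D q a n (aff k (Pc G w))) : Good D q a n (aff k (Pc G (w * e))) := by
  have hW := isWt_frob (k := k) (K := K) hq D.H
  have h1 : ∀ n, LeF K q u (D.H n (aff k (Localization.Away (pc G w e)))) := by
    intro n
    obtain ⟨e1⟩ := h_alg (compact hD) (opnE G w e).symm n
    exact hW.le_sub e1.inv inferInstance u (ho n)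
  exact good_alg hD (opnE G w e).symm (good_open hD hq _ _ (ft_aff True)
    (triple_away (pc G w e)) huv h1 (ge_alg (compact hD) hW (cloE G w e).symm hc) h)

end piece

omit [Field k] hD [IsAlgClosed K] in
lemma q_ne : (q : K) ≠ 0 := by
  obtain ⟨ι⟩ := ‹Nonempty (K →+* ℂ)›
  intro h
  have h1 := congrArg ι h
  rw [map_natCast, map_zero] at h1
  have h2 : q = 0 := by exact_mod_cast h1
  omega

/-- The closed subscheme `F = 0` of the affine space. -/
theorem good_space {σ : Type} [Fintype σ] {m : ℕ} (F : Fin (m + 1) → MvPolynomial σ k) {a n : ℤ}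
    (h0 : n ≠ 2 * Fintype.card σ) (h1 : n + 1 ≠ 2 * Fintype.card σ)
    (h : Good D q (a + m) (n + 1 + 2 * m) (aff k (Jou F))) :
    Good D q a n (aff k (MvPolynomial σ k ⧸ Ideal.span (Set.range F))) := by
  have hW := isWt_frob (k := k) (K := K) hq D.H
  refine good_closed hD _ _ (ft_aff True) (triple_jou F) (space_zero hW (compact hD) σ n h0)
    (space_zero hW (compact hD) σ (n + 1) h1) ?_
  exact good_jou hD (q_ne hq) (MvPolynomial σ k) F _
    (opnMap (aff k (MvPolynomial σ k)) (neOpen k F)) inferInstance (range_opnMap _ _) h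

omit [IsAlgClosed K] [Nonempty (K →+* ℂ)] hq in
/-- The hypersurface of a system of bilinear forms. -/
lemma good_hyp {S : Set k} {β γ : Type} [Fintype β] [Fintype γ] {m : ℕ}
    (F : Fin (m + 1) → MvPolynomial (β ⊕ γ) k) (hF : ∀ l, F l ∈ bilIn S β γ) :
    ∃ T : Fin (m + 1) → Fin (Fintype.card β) → Fin (Fintype.card γ) → k,
      (∀ l i j, T l i j ∈ S) ∧ ∀ a n, Good D q a n (hypS T) → Good D q a n (aff k (Jou F)) := by
  choose T hTS hT using hF
  have h2 : F = fun i => bil β γ (T i) := by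
    funext i
    exact (hT i).symm
  have h3 : Algebra.FiniteType k (Jou F) :=
    Algebra.FiniteType.trans (S := MvPolynomial (β ⊕ γ) k) inferInstance inferInstance
  have e1 : Jou F ≃ₐ[k] Hyp T := by
    rw [h2]
    exact (hypEquiv T).symm
  let T' : Fin (m + 1) → Fin (Fintype.card β) → Fin (Fintype.card γ) → k :=
    fun l i j => T l ((Fintype.equivFin β).symm i) ((Fintype.equivFin γ).symm j)
  have e2 : Hyp T' ≃ₐ[k] Hyp T :=
    hypRename (Equiv.refl _) (Fintype.equivFin β).symm (Fintype.equivFin γ).symm T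
  exact ⟨T', fun l i j => hTS _ _ _, fun a n h => good_alg hD (e1.trans e2.symm) h⟩

/-- **Separation of weights.** -/
theorem good_sys {S : Set k} (h0 : 0 ∈ S) (h1 : 1 ∈ S) {β γ κ : Type} [Fintype β] [Fintype γ]
    [Fintype κ] (f : κ → MvPolynomial (β ⊕ γ) k) (hf : ∀ i, f i ∈ bilIn S β γ) (b0 : β) (c0 : γ) :
    ∃ (a b m : ℕ) (T : Fin (m + 1) → Fin a → Fin b → k), (∀ l i j, T l i j ∈ S) ∧
      ∀ t n, Good D q (t + m) (n + 1 + 2 * m) (hypS T) →
        Good D q t n (aff k (Pc f (w0 k b0 c0))) := by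
  have hC := compact hD
  have hW := isWt_frob (k := k) (K := K) hq D.H
  obtain ⟨N, hN⟩ := hD.bounded (aff k (Pc f (w0 k b0 c0))) (ft_aff True)
  let r : ℕ := N.toNat + 1
  have hk : N < 2 * (r : ℤ) := by
    have := Int.self_le_toNat N
    omega
  -- the closed part
  have hZ : ∀ n, GeF K q (2 * r) (D.H n (aff k (Pc (adj (ext f b0 c0 r) (w1 k b0 c0 r)) 1))) := by
    refine ge_pc hC (e := x1 k γ b0 r) hW ?_ ?_
    · exact ge_alg hC hW (firstE f b0 c0 r) (ge_pc_poly hC hW r)
    · exact ge_alg hC hW (secondE f b0 c0 r).symm (ge_pc_poly hC hW r)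
  -- the open part
  have hU : ∀ n, LeF K q N (D.H n (aff k (Pc (ext f b0 c0 r) (1 * w1 k b0 c0 r)))) := by
    intro n
    obtain ⟨e⟩ := h_alg hC (openE f b0 c0 r) n
    exact hW.le_sub e.hom inferInstance N (hN n).1
  -- the equations
  let κ' := κ ⊕ (Fin r ⊕ Fin r)
  have hne : Nonempty κ' := ⟨Sum.inr (Sum.inl ⟨0, Nat.succ_pos _⟩)⟩
  obtain ⟨m, hm⟩ : ∃ m, Fintype.card κ' = m + 1 :=
    Nat.exists_eq_succ_of_ne_zero Fintype.card_ne_zero
  let e : Fin (m + 1) ≃ κ' := (Fintype.equivFinOfCardEq hm).symm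
  let F : Fin (m + 1) → MvPolynomial (Ex β γ r) k := ext f b0 c0 r ∘ e
  have hF : Set.range F = Set.range (ext f b0 c0 r) := by
    rw [Set.range_comp, e.range_eq_univ, Set.image_univ]
  obtain ⟨T, hTS, hT⟩ := good_hyp hD F (S := S) (fun l => ext_mem f b0 c0 r h0 h1 hf _)
  refine ⟨_, _, m, T, hTS, fun t n hG => ?_⟩
  by_cases hn : N < n
  · exact good_of_isZero hD ((hN n).2 hn)
  · have h3 : (r : ℤ) + r + 2 ≤ Fintype.card (Ex β γ r) := by
      have : r + r + 2 ≤ Fintype.card (Ex β γ r) := by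
        have h4 : 0 < Fintype.card β := Fintype.card_pos_iff.mpr ⟨b0⟩
        have h5 : 0 < Fintype.card γ := Fintype.card_pos_iff.mpr ⟨c0⟩
        rw [Fintype.card_sum, Fintype.card_sum, Fintype.card_sum, Fintype.card_fin]
        omega
      exact_mod_cast this
    have h4 := good_space hD hq F (a := t) (n := n) (by omega) (by omega) (hT _ _ hG)
    rw [hF] at h4
    have h5 := good_alg hD (oneE (ext f b0 c0 r)).symm h4
    have h6 := good_pc hD hq hk hZ hU h5
    exact good_alg hD (openE f b0 c0 r).symm h6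

theorem good_pres {S : Set k} (h0 : 0 ∈ S) (h1 : 1 ∈ S) (A : Type) [CommRing A]
    [Algebra k A] [Algebra.FiniteType k A] (n0 : ℕ) (φ : MvPolynomial (Fin n0) k →ₐ[k] A)
    (G : Finset (MvPolynomial (Fin n0) k)) (hs : Function.Surjective φ)
    (hK : RingHom.ker φ = Ideal.span (G : Set (MvPolynomial (Fin n0) k)))
    (hc : ∀ g ∈ G, ∀ m, coeff m g ∈ S) :
    ∃ (a b m : ℕ) (T : Fin (m + 1) → Fin a → Fin b → k), (∀ l i j, T l i j ∈ S) ∧
      ∀ t n, Good D q (t + m) (n + 3 + 2 * m) (hypS T) → Good D q t n (aff k A) := by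
  classical
  let d : ℕ := 1 + ∑ g ∈ G, ∑ m ∈ g.support, m.degree
  have hd : ∀ g ∈ G, ∀ m ∈ g.support, m.degree ≤ d := by
    intro g hg m hm
    have h1 : m.degree ≤ ∑ m ∈ g.support, m.degree :=
      Finset.single_le_sum (f := fun m : Fin n0 →₀ ℕ => m.degree) (fun _ _ => Nat.zero_le _) hm
    have h2 : ∑ m ∈ g.support, m.degree ≤ ∑ g ∈ G, ∑ m ∈ g.support, m.degree :=
      Finset.single_le_sum (f := fun g : MvPolynomial (Fin n0) k => ∑ m ∈ g.support, m.degree)
        (fun _ _ => Nat.zero_le _) hg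
    omega
  have hd1 : 1 ≤ d := by omega
  have hG : ∀ g ∈ G, φ g = 0 := by
    intro g hg
    have : g ∈ RingHom.ker φ := by
      rw [hK]
      exact Ideal.subset_span hg
    exact this
  obtain ⟨a, b, m, T, hT, h⟩ := good_sys hD hq h0 h1 (eqs hd1 G) (eqs_mem hd1 G h0 h1 hc)
    (mo n0 d) (mo n0 d)
  refine ⟨a, b, m, T, hT, fun t n hg => ?_⟩
  have e2 : (n + 3 : ℤ) = n + 2 + 1 := by ring
  rw [e2] at hg
  have h3 := h t (n + 2) hg
  have h6 : Algebra.FiniteType k (LCone hd1 G) :=
    Algebra.FiniteType.trans (S := Cone hd1 G) inferInstance inferInstance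
  have h7 := ft_laurent (R := k) A
  have h8 : Algebra.FiniteType k (Tor A) := ft_laurent (R := k) (LaurentPolynomial A)
  have h4 : Good D q t (n + 2) (aff k (Tor A)) :=
    good_alg hD (coneEquiv hd1 G φ hG hd hs hK).symm h3
  have e3 : (n + 2 : ℤ) = n + 1 + 1 := by ring
  rw [e3] at h4
  exact good_torus hD A (good_torus hD (LaurentPolynomial A) h4)

/-- **Theorem.** For every affine scheme `Spec A` of finite type over `k` there are a finite set `E` of
triples and `m` such that, if the Tate classes of twist `t + m` in degree `n + 3 + 2m` on the hypersurface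
`∑_{(l, i, j) ∈ E} x_l y_i z_j = 1` are motivic, the Tate classes of twist `t` in degree `n` on `Spec A`
are motivic. -/
theorem good_trip {F : Type} [Field F] [Algebra F k] [Algebra.IsSeparable F k]
    (hF : Presents ({0, 1} : Set F)) (A : Type) [CommRing A] [Algebra k A]
    [Algebra.FiniteType k A] :
    ∃ (a b m : ℕ) (E : Finset (Fin (m + 1) × Fin a × Fin b)),
      ∀ t n, Good D q (t + m) (n + 3 + 2 * m) (tripS k E) → Good D q t n (aff k A) := by
  obtain ⟨N, G, hc, ψ, hψ, e, he, hker⟩ := exists_clopen (k := k) hF A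
  obtain ⟨a, b, m, T, hT, h⟩ := good_pres hD hq (S := ({0, 1} : Set k)) (Or.inl rfl) (Or.inr rfl)
    (MvPolynomial (Fin N) k ⧸ Ideal.span (G : Set (MvPolynomial (Fin N) k))) N
    (Ideal.Quotient.mkₐ k _) G (Ideal.Quotient.mkₐ_surjective k _) (Ideal.Quotient.mkₐ_ker k _) hc
  obtain ⟨E, hE⟩ := trip_of_tri T hT
  rw [hE] at h
  have hc1 : IsClosedImmersion (affMap ψ).left := closed_affMap ψ hψ
  have ho1 : IsOpenImmersion (affMap ψ).left := open_affMap ψ hψ e he hker
  exact ⟨a, b, m, E, fun t n hg => good_clopen hD (affMap ψ) (ft_aff True) hc1 ho1 (h t n hg)⟩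

end Pool.Agent.Helper5.WT
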