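import Pool.Agent.Helper5.WT.Alg
import Pool.Agent.Helper5.WS.Emb01

/-!
# Transfer of the surjectivity of the cycle map
-/

set_option autoImplicit false

open CategoryTheory CategoryTheory.Limits AlgebraicGeometry MvPolynomial
open Pool.Agent.Y116.UV Pool.Agent.Z125.UN Pool.Agent.Helper5.WS

namespace Pool.Agent.Helper5.WT

variable {k : Type} [Field k] {K : Type} [Field K] {q : ℕ} {D : CycleThy k K}

/-- All Tate classes of twist `a` in degree `n` are motivic. -/
def Good (D : CycleThy k K) (q : ℕ) (a n : ℤ) (X : Sch k) : Prop :=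
  ∀ φ : D.H n X → K, IsTate q a (D.H n X) φ → φ ∈ D.Cyc n X a

lemma isIso_left {X Y : Sch k} (e : X ≅ Y) : IsIso e.hom.left :=
  inferInstanceAs (IsIso ((Over.forget _).map e.hom))

lemma ft_iso {X Y : Sch k} (e : X ≅ Y) (h : FT True X) : FT True Y := by
  have h1 : Y.hom = e.inv.left ≫ X.hom := (Over.w e.inv).symm
  have : IsIso e.inv.left := isIso_left e.symm
  have := h.locallyOfFiniteType
  have := h.quasiCompact
  have := h.separated trivial
  refine ⟨?_, ?_, fun _ => ?_⟩
  · rw [h1]; infer_instance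
  · rw [h1]; infer_instance
  · rw [h1]; infer_instance

lemma open_hom {X Y : Sch k} (e : X ≅ Y) : IsOpenImmersion e.hom.left := by
  have := isIso_left e
  infer_instance

lemma open_id (X : Sch k) : IsOpenImmersion (𝟙 X : X ⟶ X).left :=
  open_hom (Iso.refl X)

lemma ext_congr {U X : Sch k} {j j' : U ⟶ X} (h : j = j') (hj : IsOpenImmersion j.left)
    (hj' : IsOpenImmersion j'.left) (n : ℤ) : D.ext j hj n = D.ext j' hj' n := by
  subst h
  rfl

variable (hD : IsCycleThy D q)

include hD

lemma ext_iso {X Y : Sch k} (e : X ≅ Y) (hX : FT True X) (n : ℤ) :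
    D.ext e.hom (open_hom e) n ≫ D.ext e.inv (open_hom e.symm) n = 𝟙 _ := by
  have h : IsOpenImmersion (e.hom ≫ e.inv).left := by
    rw [e.hom_inv_id]
    exact open_id X
  rw [← hD.ext_comp e.hom e.inv (open_hom e) (open_hom e.symm) h hX n,
    ext_congr e.hom_inv_id h (open_id X) n, hD.ext_id X _ hX n]

lemma compact : IsCompactThy (frobThy K q D.H) where
  iso := by
    rintro X Y hX ⟨e⟩ i
    exact ⟨⟨D.ext e.hom (open_hom e) i, D.ext e.inv (open_hom e.symm) i, ext_iso hD e hX i,
      ext_iso hD e.symm (ft_iso e hX) i⟩⟩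
  les := by
    intro Z X U i j hX ht
    obtain ⟨b, d, h1, h2, h3, -⟩ := hD.les i j hX ht
    exact ⟨_, b, d, h1, h2, h3⟩
  bundle := by
    intro A _ _ _ m f U j hj hr i
    obtain ⟨e, -⟩ := hD.bundle A m f U j hj hr i
    exact ⟨e⟩
  torus := by
    intro A _ _ _ i
    obtain ⟨s, ⟨r, h⟩, -⟩ := hD.torus A i
    exact ⟨s, r, h⟩
  clopen := by
    intro Z X i hX hc ho n
    obtain ⟨r, h⟩ := hD.clopen i hX hc ho n
    exact ⟨_, r, h⟩
  point := hD.point
  ge_zero := hD.ge_zero
  bounded := hD.bounded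

lemma good_iso {X Y : Sch k} (e : X ≅ Y) (hX : FT True X) {a n : ℤ} (h : Good D q a n Y) :
    Good D q a n X := by
  intro φ hφ
  have h1 := hD.restrict e.hom (open_hom e) (ft_iso e hX) n a _
    (h _ (tate_comp (D.ext e.inv (open_hom e.symm) n).hom hφ))
  have h2 : (fun x => φ ((D.ext e.inv (open_hom e.symm) n).hom (D.ext e.hom (open_hom e) n x))) =
      φ := by
    funext x
    have h3 := congrArg (fun f => f x) (congrArg ModuleCat.Hom.hom (ext_iso hD e hX n))
    exact congrArg φ h3
  rw [h2] at h1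
  exact h1

lemma good_alg {A B : Type} [CommRing A] [CommRing B] [Algebra k A] [Algebra k B]
    [Algebra.FiniteType k A] (e : A ≃ₐ[k] B) {a n : ℤ} (h : Good D q a n (aff k B)) :
    Good D q a n (aff k A) :=
  good_iso hD (affIso e).symm (ft_aff True) h

lemma good_jou (hq : (q : K) ≠ 0) (A : Type) [CommRing A] [Algebra k A] [Algebra.FiniteType k A]
    {m : ℕ} (f : Fin (m + 1) → A) (U : Sch k) (j : U ⟶ aff k A) (hj : IsOpenImmersion j.left)
    (hr : Set.range j.left = {x : PrimeSpectrum A | ∃ l, f l ∉ x.asIdeal}) {a i : ℤ}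
    (h : Good D q (a + m) (i + 2 * m) (aff k (Jou f))) : Good D q a i U := by
  intro φ hφ
  obtain ⟨e, he⟩ := hD.bundle A m f U j hj hr i
  exact he a φ (h _ (tate_comp e.hom.hom (tate_untw hq m _ hφ)))

lemma good_torus (A : Type) [CommRing A] [Algebra k A] [Algebra.FiniteType k A] {a i : ℤ}
    (h : Good D q a (i + 1) (aff k (LaurentPolynomial A))) : Good D q a i (aff k A) := by
  intro φ hφ
  obtain ⟨s, ⟨r, hsr⟩, he⟩ := hD.torus A i
  have h1 := he a _ (h _ (tate_comp r.hom hφ))
  have h2 : (fun x => φ (r.hom (s x))) = φ := by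
    funext x
    have h3 := congrArg (fun f => f x) (congrArg ModuleCat.Hom.hom hsr)
    exact congrArg φ h3
  rw [h2] at h1
  exact h1

lemma good_clopen {Z X : Sch k} (i : Z ⟶ X) (hX : FT True X) (hc : IsClosedImmersion i.left)
    (ho : IsOpenImmersion i.left) {a n : ℤ} (h : Good D q a n X) : Good D q a n Z := by
  intro φ hφ
  obtain ⟨r, hr⟩ := hD.clopen i hX hc ho n
  have h1 := hD.restrict i ho hX n a _ (h _ (tate_comp r.hom hφ))
  have h2 : (fun x => φ (r.hom (D.ext i ho n x))) = φ := by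
    funext x
    have h3 := congrArg (fun f => f x) (congrArg ModuleCat.Hom.hom hr)
    exact congrArg φ h3
  rw [h2] at h1
  exact h1

omit hD in
lemma tate_of_isZero {M : ModuleCat.{0} (Polynomial K)} (hM : IsZero M) {a : ℤ} {φ : M → K}
    (h : IsTate q a M φ) : φ = fun _ => 0 := by
  have : Subsingleton M := ModuleCat.subsingleton_of_isZero hM
  have h0 : φ 0 = 0 := by
    have := h.1 0 0
    rw [add_zero] at this
    simpa using this
  funext x
  rw [Subsingleton.elim x 0, h0]

lemma good_of_isZero {X : Sch k} {a n : ℤ} (h : IsZero (D.H n X)) : Good D q a n X := by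
  intro φ hφ
  rw [tate_of_isZero h hφ]
  exact hD.zero n X a

/-- Closed subschemes of schemes without cohomology. -/
lemma good_closed {Z X U : Sch k} (i : Z ⟶ X) (j : U ⟶ X) (hX : FT True X) (ht : IsTriple i j)
    {a n : ℤ} (h0 : IsZero (D.H n X)) (h1 : IsZero (D.H (n + 1) X))
    (h : Good D q a (n + 1) U) : Good D q a n Z := by
  intro φ hφ
  obtain ⟨b, d, -, h2, h3, h4⟩ := hD.les i j hX ht
  have hm : Mono (d n) := mono_of_exact (h2 n) (h0.eq_of_src _ _)
  have hi : Function.Injective (d n).hom := (ModuleCat.mono_iff_injective _).mp hm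
  have hs : Function.Surjective (d n).hom := by
    intro y
    obtain ⟨hz, hex⟩ := h3 n
    refine (ShortComplex.moduleCat_exact_iff _).mp hex y ?_
    have : Subsingleton (D.H (n + 1) X) := ModuleCat.subsingleton_of_isZero h1
    exact Subsingleton.elim _ _
  let e := LinearEquiv.ofBijective (d n).hom ⟨hi, hs⟩
  have h5 := h4 n a _ (h _ (tate_comp e.symm.toLinearMap hφ))
  have h6 : (fun x => φ (e.symm.toLinearMap (d n x))) = φ := by
    funext x
    exact congrArg φ (e.symm_apply_apply x)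
  rw [h6] at h5
  exact h5

variable [IsAlgClosed K] [Nonempty (K →+* ℂ)] (hq : 1 < q)

include hq

/-- Separation of weights. -/
lemma good_open {Z X U : Sch k} (i : Z ⟶ X) (j : U ⟶ X) (hX : FT True X) (ht : IsTriple i j)
    {w w' : ℤ} (hw : w < w') (hU : ∀ n, LeF K q w (D.H n U)) (hZ : ∀ n, GeF K q w' (D.H n Z))
    {a n : ℤ} (h : Good D q a n X) : Good D q a n U := by
  intro φ hφ
  by_cases hwa : w < 2 * a
  · rw [tate_zero hq hwa (hU n) hφ]
    exact hD.zero n U a
  obtain ⟨b, d, h1, -, h3, -⟩ := hD.les i j hX ht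
  have hm := mono_of_exact (h3 (n - 1))
    (zero_of_wt (isWt_frob hq D.H) (d (n - 1)) hw (hZ _) (hU _))
  rw [sub_add_cancel] at hm
  have hi : Function.Injective (D.ext j ht.opened n).hom := (ModuleCat.mono_iff_injective _).mp hm
  obtain ⟨hz, hex⟩ := h1 n
  have h4 : ∀ x, (b n).hom x = 0 → ∃ y, (D.ext j ht.opened n).hom y = x :=
    (ShortComplex.moduleCat_exact_iff _).mp hex
  have h5 : ∀ x, (b n).hom ((D.ext j ht.opened n).hom x) = 0 := by
    intro x
    exact congrArg (fun f => f x) (congrArg ModuleCat.Hom.hom hz)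
  obtain ⟨ψ, hψ, hx⟩ := tate_extend (D.ext j ht.opened n).hom (b n).hom hi h5 h4
    (not_eig hq (by omega) (hZ n)) hφ
  have h6 := hD.restrict j ht.opened hX n a ψ (h ψ hψ)
  have h7 : (fun x => ψ (D.ext j ht.opened n x)) = φ := funext hx
  rw [h7] at h6
  exact h6

end Pool.Agent.Helper5.WT
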